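import Pool.Agent.Helper66.GP.Kit
import Pool.Agent.Helper76.GP.VO
import Pool.Agent.Helper22.GP.FN

/-!
# MF: random forcing is `ω^ω`-bounding
-/

universe u

namespace Pool.Agent.Helper66.GP

namespace MF

open ZFSet MeasureTheory Pool.Agent.Helper66.SC Pool.Agent.Helper22.SC

/-- iterated successor -/
noncomputable def sj : ℕ → ZFSet.{u} → ZFSet.{u}
  | 0, x => x
  | j + 1, x => Insert.insert (sj j x) (sj j x)

theorem sj_nz (j n : ℕ) : sj j (nz n : ZFSet.{u}) = nz (n + j) := by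
  induction j with
  | zero => rfl
  | succ j ih =>
    change Insert.insert (sj j (nz n)) (sj j (nz n)) = _
    rw [ih]
    exact (nat_succ (n + j)).symm

/-- The parameters: poset, condition, forcing relation, measure table, `V_ω`, `Str`, chooser. -/
abbrev P7 : Type (u + 1) := ZFSet.{u} × ZFSet.{u} × ZFSet.{u} × ZFSet.{u} × ZFSet.{u} × ZFSet.{u} ×
  ZFSet.{u}

section

variable {α : Type (u + 1)} [Ctx.{u} α]

theorem _root_.Pool.Agent.Helper22.SC.U.mfsj (j : ℕ) {f : Set ZFSet.{u} → Set ZFSet.{u} → α → ZFSet.{u}}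
    (hf : U KZ.{u} f) : U KZ.{u} (fun N A a => sj j (f N A a)) := by
  induction j with
  | zero => exact hf
  | succ j ih => exact U.insert ih ih

/-- conditions deciding `x(n) ≤ m`, or incompatible with `p₀` -/
noncomputable def E (c : P7.{u}) (n m : ZFSet.{u}) : ZFSet.{u} :=
  c.1.sep (fun p => (∀ r ∈ c.1, ¬ (p ⊆ r ∧ c.2.1 ⊆ r)) ∨
    ∃ m' ∈ ZFSet.omega, m' ⊆ m ∧ pair (pair n m') p ∈ c.2.2.1)

theorem u_E : U KZ.{u} (fun _ _ (q : (P7.{u} × ZFSet.{u}) × ZFSet.{u}) => E q.1.1 q.1.2 q.2) := by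
  unfold E
  apply_rules (transparency := .reducible) (maxDepth := 400) using is_poly

theorem _root_.Pool.Agent.Helper22.SC.U.mfE {c : Set ZFSet.{u} → Set ZFSet.{u} → α → P7.{u}}
    {n m : Set ZFSet.{u} → Set ZFSet.{u} → α → ZFSet.{u}} (hc : U KZ.{u} c) (hn : U KZ.{u} n)
    (hm : U KZ.{u} m) : U KZ.{u} (fun N A a => E (c N A a) (n N A a) (m N A a)) :=
  u_E.comp ((hc.prodMk hn).prodMk hm)

attribute [is_poly] U.mfsj U.mfE

/-- finite intersections of measure at most `2 ^ (-k)` -/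
noncomputable def C (N : Set ZFSet.{u}) (c : P7.{u}) (n m k : ZFSet.{u}) : ZFSet.{u} :=
  (Helper66.SC.Pow N c.2.2.2.2.2.1).sep (fun x => (∃ e ∈ Helper66.SC.Pow N c.1,
    {y | y ∈ e}.Finite ∧ e ≠ ∅ ∧ e ⊆ E c n m ∧
      ∀ s ∈ c.2.2.2.2.2.1, (s ∈ x ↔ ∀ b ∈ e, s ∈ b)) ∧
    ∀ F ∈ c.2.2.2.2.1, F ⊆ x → pair (pair F ∅) (pair ((1 : ℕ) : Ordinal.{u}).toZFSet k) ∉ c.2.2.2.1)

theorem u_C : U KZ.{u} (fun N _ (q : ((P7.{u} × ZFSet.{u}) × ZFSet.{u}) × ZFSet.{u}) =>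
    C N q.1.1.1 q.1.1.2 q.1.2 q.2) := by
  unfold C
  apply_rules (transparency := .reducible) (maxDepth := 400) using is_poly

theorem _root_.Pool.Agent.Helper22.SC.U.mfC {c : Set ZFSet.{u} → Set ZFSet.{u} → α → P7.{u}}
    {n m k : Set ZFSet.{u} → Set ZFSet.{u} → α → ZFSet.{u}} (hc : U KZ.{u} c) (hn : U KZ.{u} n)
    (hm : U KZ.{u} m) (hk : U KZ.{u} k) :
    U KZ.{u} (fun N A a => C N (c N A a) (n N A a) (m N A a) (k N A a)) :=
  u_C.comp (((hc.prodMk hn).prodMk hm).prodMk hk)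

attribute [is_poly] U.mfC

/-- the bound at `n` -/
noncomputable def bd (j : ℕ) (N : Set ZFSet.{u}) (c : P7.{u}) (n : ZFSet.{u}) : ZFSet.{u} :=
  Helper22.SC.lst (ZFSet.sep (fun m => C N c n m (sj j n) ≠ ∅) ZFSet.omega)

theorem u_bd (j : ℕ) : U KZ.{u} (fun N _ (q : P7.{u} × ZFSet.{u}) => bd j N q.1 q.2) := by
  unfold bd
  apply_rules (transparency := .reducible) (maxDepth := 400) using is_poly

theorem _root_.Pool.Agent.Helper22.SC.U.mfbd (j : ℕ)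
    {c : Set ZFSet.{u} → Set ZFSet.{u} → α → P7.{u}}
    {n : Set ZFSet.{u} → Set ZFSet.{u} → α → ZFSet.{u}} (hc : U KZ.{u} c) (hn : U KZ.{u} n) :
    U KZ.{u} (fun N A a => bd j N (c N A a) (n N A a)) :=
  U.comp (g := fun N _ (q : P7.{u} × ZFSet.{u}) => bd j N q.1 q.2)
    (f := fun N A a => (c N A a, n N A a)) (u_bd j) (hc.prodMk hn)

attribute [is_poly] U.mfbd

/-- the small set at `n` -/
noncomputable def ch (j : ℕ) (N : Set ZFSet.{u}) (c : P7.{u}) (n : ZFSet.{u}) : ZFSet.{u} :=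
  Helper22.SC.argmin c.2.2.2.2.2.2 (C N c n (bd j N c n) (sj j n))

theorem u_ch (j : ℕ) : U KZ.{u} (fun N _ (q : P7.{u} × ZFSet.{u}) => ch j N q.1 q.2) := by
  unfold ch
  apply_rules (transparency := .reducible) (maxDepth := 400) using is_poly

theorem _root_.Pool.Agent.Helper22.SC.U.mfch (j : ℕ)
    {c : Set ZFSet.{u} → Set ZFSet.{u} → α → P7.{u}}
    {n : Set ZFSet.{u} → Set ZFSet.{u} → α → ZFSet.{u}} (hc : U KZ.{u} c) (hn : U KZ.{u} n) :
    U KZ.{u} (fun N A a => ch j N (c N A a) (n N A a)) :=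
  U.comp (g := fun N _ (q : P7.{u} × ZFSet.{u}) => ch j N q.1 q.2)
    (f := fun N A a => (c N A a, n N A a)) (u_ch j) (hc.prodMk hn)

attribute [is_poly] U.mfch

/-- the bounding function -/
noncomputable def w (j : ℕ) (N : Set ZFSet.{u}) (c : P7.{u}) : ZFSet.{u} :=
  Helper22.SC.gr ZFSet.omega (fun n => bd j N c n)

theorem u_w (j : ℕ) : U KZ.{u} (fun N _ (q : P7.{u}) => w j N q) := by
  unfold w
  apply_rules (transparency := .reducible) (maxDepth := 400) using is_poly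

/-- the union of the small sets and `p₀` -/
noncomputable def un (j : ℕ) (N : Set ZFSet.{u}) (c : P7.{u}) : ZFSet.{u} :=
  c.2.1 ∪ ZFSet.sUnion (Helper66.SC.img ZFSet.omega (fun n => ch j N c n))

theorem u_un (j : ℕ) : U KZ.{u} (fun N _ (q : P7.{u}) => un j N q) := by
  unfold un
  apply_rules (transparency := .reducible) (maxDepth := 400) using is_poly

end

/-! ### Measure -/

open Pool.Agent.Helper76.GP (US_inter Sd_inter US_mono US_satu Sd_satu sub_satu MA7 exists_rl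
  mem_US rl_sub)

instance : IsProbabilityMeasure coin := by
  unfold coin
  infer_instance

theorem US_empty : US (∅ : ZFSet.{u}) = ∅ := by
  ext x
  rw [mem_US]
  constructor
  · rintro ⟨n, h⟩
    exact (ZFSet.notMem_empty _ h).elim
  · intro h
    exact h.elim

theorem fin_inter (s : Finset ZFSet.{u}) (hs : s.Nonempty) : (∀ b ∈ s, Sd b) →
    ∀ c : ZFSet.{u}, c ⊆ Str → (∀ t ∈ Str, (t ∈ c ↔ ∀ b ∈ s, t ∈ b)) →
      Sd c ∧ US c = ⋂ b ∈ s, US b := by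
  classical
  induction hs using Finset.Nonempty.cons_induction with
  | singleton a =>
    intro hS c hc h
    have hSa := hS a (Finset.mem_singleton_self a)
    have : c = a := by
      ext t
      constructor
      · intro ht
        exact (h t (hc ht)).1 ht a (Finset.mem_singleton_self a)
      · intro ht
        exact (h t (hSa.1 ht)).2 (by simpa using ht)
    rw [this]
    exact ⟨hSa, by simp⟩
  | cons a s ha hs ih =>
    intro hS c hc h
    have hSa := hS a (Finset.mem_cons_self a s)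
    obtain ⟨h1, h2⟩ := ih (fun b hb => hS b (Finset.mem_cons_of_mem hb))
      (Str.sep (fun t => ∀ b ∈ s, t ∈ b)) (fun t ht => (ZFSet.mem_sep.1 ht).1)
      (fun t ht => by rw [ZFSet.mem_sep]; exact ⟨fun h => h.2, fun h => ⟨ht, h⟩⟩)
    have : c = a ∩ Str.sep (fun t => ∀ b ∈ s, t ∈ b) := by
      ext t
      rw [ZFSet.mem_inter, ZFSet.mem_sep]
      constructor
      · intro ht
        have := (h t (hc ht)).1 ht
        exact ⟨this a (Finset.mem_cons_self a s), hc ht,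
          fun b hb => this b (Finset.mem_cons_of_mem hb)⟩
      · rintro ⟨h3, h4, h5⟩
        refine (h t h4).2 (fun b hb => ?_)
        rcases Finset.mem_cons.1 hb with rfl | hb
        · exact h3
        · exact h5 b hb
    rw [this]
    refine ⟨Sd_inter hSa h1, ?_⟩
    rw [US_inter hSa h1, h2]
    ext x
    simp

theorem tsum_half (j : ℕ) : ∑' n : ℕ, (((1 : ℕ) : ENNReal) / 2 ^ (n + j)) = 2 * 2⁻¹ ^ j := by
  have h : ∀ n : ℕ, (((1 : ℕ) : ENNReal) / 2 ^ (n + j)) = 2⁻¹ ^ j * 2⁻¹ ^ n := by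
    intro n
    rw [Nat.cast_one, one_div, ← ENNReal.inv_pow, ← ENNReal.inv_pow, pow_add,
      ENNReal.mul_inv (Or.inl (by simp)) (Or.inl (by simp)), mul_comm]
  simp_rw [h]
  rw [ENNReal.tsum_mul_left, ENNReal.tsum_geometric, ENNReal.one_sub_inv_two, inv_inv, mul_comm]

theorem mem_RB {M : Set ZFSet.{u}} {b : ZFSet.{u}} :
    b ∈ RB M ↔ b ∈ M ∧ Sd b ∧ coin (US b) < 1 := by
  unfold RB
  rw [ZFSet.mem_sep, mem_Pow]
  constructor
  · rintro ⟨⟨h1, h2⟩, h3, h4⟩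
    exact ⟨h1, h3, h4⟩
  · rintro ⟨h1, h2, h3⟩
    exact ⟨⟨h1, h2.1⟩, h2, h3⟩

/-! ### The relation `FF(x)` and no `w` in `B` bounds `x` -/

theorem u_LeF : URel KZ.{u} (fun _ _ (p : ZFSet.{u} × ZFSet.{u}) => LeF p.1 p.2) := by
  have h : URel KZ.{u} (fun _ _ (p : ZFSet.{u} × ZFSet.{u}) =>
      ∀ n ∈ dom p.1, ∀ m ∈ ran p.1, ∀ m' ∈ ran p.2, pair n m ∈ p.1 → pair n m' ∈ p.2 →
        m ⊆ m') := by
    apply_rules (transparency := .reducible) (maxDepth := 400) using is_poly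
  refine h.congr (fun N A _ a _ => ?_)
  constructor
  · intro H n m m' h1 h2
    exact H n (mem_dom.2 ⟨_, h1⟩) m (mem_ran.2 ⟨_, h1⟩) m' (mem_ran.2 ⟨_, h2⟩) h1 h2
  · intro H n _ m _ m' _ h1 h2
    exact H n m m' h1 h2

theorem _root_.Pool.Agent.Helper22.SC.URel.mfLeF {α : Type (u + 1)} [Ctx.{u} α]
    {f g : Set ZFSet.{u} → Set ZFSet.{u} → α → ZFSet.{u}} (hf : U KZ.{u} f) (hg : U KZ.{u} g) :
    URel KZ.{u} (fun N A a => LeF (f N A a) (g N A a)) := u_LeF.comp (hf.prodMk hg)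

attribute [is_poly] URel.mfLeF

theorem urel_bad : URel KZ.{u} (fun _ _ (q : Fin 2 → ZFSet.{u}) =>
    FF (q 0) ∧ ∀ w ∈ q 1, ¬ (FF w ∧ LeF (q 0) w)) := by
  apply_rules (transparency := .reducible) (maxDepth := 400) using is_poly

/-! ### The construction -/

open Pool.Agent.Helper76.GP (mem_nz nzs nzi VO_mem)

/-- The parameters. -/
noncomputable abbrev par (M : Set ZFSet.{u}) (p₀ D Ec : ZFSet.{u}) : P7.{u} :=
  (RB M, p₀, D, MuR, VO, Str, Ec)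

/-- The setting. -/
structure Setup (M : Set ZFSet.{u}) (τ p₀ D Ec : ZFSet.{u}) : Prop where
  ctm : Ctm M
  mu : MuR ∈ M
  str : Str ∈ M
  R : RB M ∈ M
  R0 : ∅ ∈ RB M
  p0 : p₀ ∈ RB M
  hD : D ∈ M
  Dspec : ∀ t ∈ ZFSet.omega.prod ZFSet.omega, ∀ p ∈ RB M, (pair t p ∈ D ↔
    ∀ G', IsGeneric M (RB M) G' → p ∈ G' → t ∈ val G' τ)
  τM : τ ∈ M
  hE : Ec ∈ M
  ch : Chooses Ec (PW M Str)
  forces : ∀ G', IsGeneric M (RB M) G' → p₀ ∈ G' → FF (val G' τ)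

variable {M : Set ZFSet.{u}} {τ p₀ D Ec : ZFSet.{u}}

theorem Setup.par_in (h : Setup M τ p₀ D Ec) : In M (par M p₀ D Ec) := by
  have h1 : p₀ ∈ M := h.ctm.zf.trans _ h.R _ h.p0
  simp [h.R, h1, h.hD, h.mu, VO_mem h.ctm.zf, h.str, h.hE]

theorem nz_om (n : ℕ) : (nz n : ZFSet.{u}) ∈ ZFSet.omega := mem_omega_iff'.2 ⟨n, rfl⟩

theorem emp_VO : (∅ : ZFSet.{u}) ∈ VO := by
  have := Pool.Agent.Helper76.GP.nz_VO.{u} 0
  have h0 : (nz 0 : ZFSet.{u}) = ∅ := nat_zero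
  rwa [h0] at this

theorem E_mono {c : P7.{u}} {n : ZFSet.{u}} {m m' : ℕ} (h : m ≤ m') :
    E c n (nz m) ⊆ E c n (nz m') := by
  intro p hp
  unfold E at hp ⊢
  rw [ZFSet.mem_sep] at hp ⊢
  refine ⟨hp.1, hp.2.imp id ?_⟩
  rintro ⟨k, hk, h1, h2⟩
  exact ⟨k, hk, fun x hx => nzs h (h1 hx), h2⟩

theorem step1 (hMC : ST_MC.{u}) (h : Setup M τ p₀ D Ec) (n k : ℕ) :
    ∃ m : ℕ, C M (par M p₀ D Ec) (nz n) (nz m) (nz k) ≠ ∅ := by
  classical
  set R := RB M with hR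
  have hp0M : p₀ ∈ M := h.ctm.zf.trans _ h.R _ h.p0
  have hnM : (nz n : ZFSet.{u}) ∈ M := h.ctm.zf.trans _ h.ctm.zf.omega _ (nz_om n)
  set En : ZFSet.{u} := R.sep (fun p => (∀ r ∈ R, ¬ (p ⊆ r ∧ p₀ ⊆ r)) ∨
    ∃ m' ∈ ZFSet.omega, pair (pair (nz n) m') p ∈ D) with hEn
  have hEnM : En ∈ M := by
    have hU : U KZ.{u} (fun _ _ (q : ((ZFSet.{u} × ZFSet.{u}) × ZFSet.{u}) × ZFSet.{u}) =>
        ZFSet.sep (fun p => (∀ r ∈ q.1.1.1, ¬ (p ⊆ r ∧ q.1.1.2 ⊆ r)) ∨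
          ∃ m' ∈ ZFSet.omega, pair (pair q.2 m') p ∈ q.1.2) q.1.1.1) := by
      apply_rules (transparency := .reducible) (maxDepth := 400) using is_poly
    have := hU.closed h.ctm.zf (a := (((R, p₀), D), nz n)) (by simp [h.R, hR, hp0M, h.hD, hnM])
    exact in_zfset.1 this
  have hdense : ∀ b ∈ R, ∃ c ∈ En, b ⊆ c := by
    intro b hb
    by_cases hbr : ∃ r ∈ R, b ⊆ r ∧ p₀ ⊆ r
    · obtain ⟨r, hr, hbr, hpr⟩ := hbr
      obtain ⟨G, hG, hrG⟩ := exists_generic h.ctm h.R h.R0 hr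
      have hp0G : p₀ ∈ G := hG.up r hrG p₀ h.p0 hpr
      have hFF := h.forces G hG hp0G
      obtain ⟨w, hw, -⟩ := hFF.2 (nz n) (nz_om n)
      have hwo : w ∈ ZFSet.omega := (pair_mem_prod.1 (hFF.1 hw)).2
      have htM : pair (nz n) w ∈ M :=
        h.ctm.zf.trans _ (prod_mem h.ctm.zf h.ctm.zf.omega h.ctm.zf.omega) _
          (pair_mem_prod.2 ⟨nz_om n, hwo⟩)
      have hv : ∀ i, (![chk (pair (nz n) w), τ] : Fin 2 → ZFSet.{u}) i ∈ M := by
        intro i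
        fin_cases i
        · exact chk_mem h.ctm.zf htM
        · exact h.τM
      obtain ⟨p, hp, hf⟩ := st_KT M R G h.ctm h.R hG 2 (.mem 0 1) ![chk (pair (nz n) w), τ] hv (by
        change val G (chk (pair (nz n) w)) ∈ val G τ
        rwa [val_chk' h.ctm h.R hG htM])
      obtain ⟨r', hr', h1, h2⟩ := hG.dir r hrG p hp
      refine ⟨r', ZFSet.mem_sep.2 ⟨hG.sub hr', Or.inr ⟨w, hwo, ?_⟩⟩, fun x hx => h1 (hbr hx)⟩
      refine (h.Dspec _ (pair_mem_prod.2 ⟨nz_om n, hwo⟩) r' (hG.sub hr')).2 (fun G' hG' hr'' => ?_)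
      have := hf G' hG' (hG'.up r' hr'' p (hG.sub hp) h2)
      change val G' (chk (pair (nz n) w)) ∈ val G' τ at this
      rwa [val_chk' h.ctm h.R hG' htM] at this
    · push Not at hbr
      refine ⟨b, ZFSet.mem_sep.2 ⟨hb, Or.inl (fun r hr hh => hbr r hr hh.1 hh.2)⟩, fun x hx => hx⟩
  have hε : (0 : ENNReal) < ((1 : ℕ) : ENNReal) / 2 ^ k := by
    rw [Nat.cast_one, one_div]
    exact ENNReal.inv_pos.2 (by simp)
  obtain ⟨e, he, hce⟩ := hMC M En h.ctm.zf h.ctm.wo h.mu hEnM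
    (fun x hx => (ZFSet.mem_sep.1 hx).1) hdense _ hε
  have hne : e.Nonempty := by
    rw [Finset.nonempty_iff_ne_empty]
    rintro rfl
    have h1 : (((1 : ℕ) : ENNReal) / 2 ^ k) ≤ 1 := by
      rw [Nat.cast_one, one_div]
      exact ENNReal.inv_le_one.2 (one_le_pow_of_one_le' (by norm_num) k)
    have h2 : coin (⋂ b ∈ (∅ : Finset ZFSet.{u}), US b) = 1 := by
      simp
    rw [h2] at hce
    exact absurd (hce.trans_le h1) (lt_irrefl _)
  have hbd : ∀ b : ZFSet.{u}, ∃ mb : ℕ, b ∈ e → b ∈ E (par M p₀ D Ec) (nz n) (nz mb) := by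
    intro b
    by_cases hb : b ∈ e
    · obtain ⟨h1, h2⟩ := ZFSet.mem_sep.1 (he b hb)
      rcases h2 with h2 | ⟨m', hm', h2⟩
      · exact ⟨0, fun _ => ZFSet.mem_sep.2 ⟨h1, Or.inl h2⟩⟩
      · obtain ⟨mb, rfl⟩ := mem_omega_iff'.1 hm'
        exact ⟨mb, fun _ => ZFSet.mem_sep.2 ⟨h1, Or.inr ⟨nz mb, hm', fun x hx => hx, h2⟩⟩⟩
    · exact ⟨0, fun h => absurd h hb⟩
  choose mb hmb using hbd
  refine ⟨e.sup mb, ?_⟩
  set e' : ZFSet.{u} := R.sep (fun b => b ∈ e) with he'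
  have hmem : ∀ b, b ∈ e' ↔ b ∈ e := by
    intro b
    rw [he', ZFSet.mem_sep]
    exact ⟨fun h => h.2, fun hb => ⟨(ZFSet.mem_sep.1 (he b hb)).1, hb⟩⟩
  have hfin : {y | y ∈ e'}.Finite := by
    refine (e.finite_toSet).subset ?_
    intro y hy
    exact (hmem y).1 hy
  have he'M : e' ∈ M := by
    refine Pool.Agent.Helper22.GP.fin_mem h.ctm.zf (fun y hy => ?_) hfin
    exact h.ctm.zf.trans _ h.R _ (ZFSet.mem_sep.1 hy).1
  set x : ZFSet.{u} := Str.sep (fun t => ∀ b ∈ e', t ∈ b) with hx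
  have hxM : x ∈ M := by
    have hU : U KZ.{u} (fun _ _ (q : ZFSet.{u} × ZFSet.{u}) =>
        ZFSet.sep (fun t => ∀ b ∈ q.2, t ∈ b) q.1) := by
      apply_rules (transparency := .reducible) (maxDepth := 400) using is_poly
    have := hU.closed h.ctm.zf (a := (Str, e')) (by simp [h.str, he'M])
    simpa using this
  have hSd : ∀ b ∈ e, Sd b := fun b hb => (mem_RB.1 (ZFSet.mem_sep.1 (he b hb)).1).2.1
  obtain ⟨hx1, hx2⟩ := fin_inter e hne hSd x (fun t ht => (ZFSet.mem_sep.1 ht).1) (by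
    intro t ht
    rw [hx, ZFSet.mem_sep]
    constructor
    · exact fun hh b hb => hh.2 b ((hmem b).2 hb)
    · exact fun hh => ⟨ht, fun b hb => hh b ((hmem b).1 hb)⟩)
  have hxS : x ⊆ Str := fun t ht => (ZFSet.mem_sep.1 ht).1
  intro hC
  have : x ∈ C M (par M p₀ D Ec) (nz n) (nz (e.sup mb)) (nz k) := by
    unfold C
    refine ZFSet.mem_sep.2 ⟨mem_Pow.2 ⟨hxM, hxS⟩, ⟨e', mem_Pow.2 ⟨he'M, ?_⟩, hfin, ?_, ?_, ?_⟩, ?_⟩
    · intro y hy
      exact (ZFSet.mem_sep.1 hy).1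
    · obtain ⟨b, hb⟩ := hne
      intro h0
      have := (hmem b).2 hb
      rw [h0] at this
      exact ZFSet.notMem_empty _ this
    · intro b hb
      have hb' := (hmem b).1 hb
      exact E_mono (Finset.le_sup hb') (hmb b hb')
    · intro t ht
      rw [hx, ZFSet.mem_sep]
      exact ⟨fun hh => hh.2, fun hh => ⟨ht, hh⟩⟩
    · refine (MA7 x ∅ 1 k hxS emp_VO
        (ZFSet.empty_subset _)).1 ?_
      rw [US_empty, Set.sdiff_empty, hx2]
      exact hce.le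
  rw [hC] at this
  exact ZFSet.notMem_empty _ this

theorem step2 {n m x : ZFSet.{u}} {k : ℕ}
    (hx : x ∈ C M (par M p₀ D Ec) n m (nz k)) :
    x ⊆ Str ∧ coin (US x) ≤ ((1 : ℕ) : ENNReal) / 2 ^ k ∧
      ∀ z, z ∉ US x → ∃ b ∈ E (par M p₀ D Ec) n m, z ∉ US b := by
  unfold C at hx
  obtain ⟨h1, ⟨e, he, hfin, hne, heE, hes⟩, h2⟩ := ZFSet.mem_sep.1 hx
  have hxS : x ⊆ Str := (mem_Pow.1 h1).2
  have heR := (mem_Pow.1 he).2
  have hne' : hfin.toFinset.Nonempty := by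
    rw [Set.Finite.toFinset_nonempty]
    by_contra hh
    apply hne
    rw [ZFSet.eq_empty]
    intro y hy
    exact hh ⟨y, hy⟩
  obtain ⟨h3, h4⟩ := fin_inter hfin.toFinset hne' (fun b hb => by
    rw [Set.Finite.mem_toFinset] at hb
    exact (mem_RB.1 (heR hb)).2.1) x hxS (fun t ht => by
      rw [hes t ht]
      simp)
  refine ⟨hxS, ?_, ?_⟩
  · have := (MA7 x ∅ 1 k hxS emp_VO
      (ZFSet.empty_subset _)).2 h2
    rwa [US_empty, Set.sdiff_empty] at this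
  · intro z hz
    rw [h4] at hz
    simp only [Set.mem_iInter, Set.Finite.mem_toFinset, Set.mem_ofPred_eq, not_forall] at hz
    obtain ⟨b, hb, hzb⟩ := hz
    exact ⟨b, heE hb, hzb⟩

theorem step3 (hMC : ST_MC.{u}) (h : Setup M τ p₀ D Ec) (j n : ℕ) :
    bd j M (par M p₀ D Ec) (nz n) ∈ ZFSet.omega ∧
      ch j M (par M p₀ D Ec) (nz n) ∈ C M (par M p₀ D Ec) (nz n)
        (bd j M (par M p₀ D Ec) (nz n)) (nz (n + j)) := by
  have hS := lst_mem (S := ZFSet.sep (fun m => C M (par M p₀ D Ec) (nz n) m (sj j (nz n)) ≠ ∅)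
    ZFSet.omega) (fun x hx => by
      obtain ⟨i, rfl⟩ := mem_omega_iff'.1 (ZFSet.mem_sep.1 hx).1
      exact isOrdinal_toZFSet _) (by
      obtain ⟨m, hm⟩ := step1 hMC h n (n + j)
      intro h0
      have : (nz m : ZFSet.{u}) ∈ ZFSet.sep (fun m => C M (par M p₀ D Ec) (nz n) m
          (sj j (nz n)) ≠ ∅) ZFSet.omega := by
        refine ZFSet.mem_sep.2 ⟨nz_om m, ?_⟩
        rw [sj_nz]
        exact hm
      rw [h0] at this
      exact ZFSet.notMem_empty _ this)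
  have h1 := ZFSet.mem_sep.1 hS.1
  refine ⟨h1.1, ?_⟩
  have h2 : C M (par M p₀ D Ec) (nz n) (bd j M (par M p₀ D Ec) (nz n)) (sj j (nz n)) ≠ ∅ := h1.2
  rw [← sj_nz]
  unfold ch
  refine h.ch _ (fun x hx => ?_) h2
  unfold C at hx
  exact (ZFSet.mem_sep.1 hx).1

theorem main (hMB : ST_MB.{u}) (hMC : ST_MC.{u}) (hME : ST_ME.{u}) (h : Setup M τ p₀ D Ec) :
    ∃ G, IsGeneric M (RB M) G ∧ p₀ ∈ G ∧ ∃ w ∈ M, FF w ∧ LeF (val G τ) w := by
  have hp0M : p₀ ∈ M := h.ctm.zf.trans _ h.R _ h.p0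
  have hp0 := mem_RB.1 h.p0
  -- choose `j`
  obtain ⟨j, hj⟩ := ENNReal.exists_inv_two_pow_lt (a := (1 - coin (US p₀)) / 2) (by
    rw [Ne, ENNReal.div_eq_zero_iff, not_or]
    exact ⟨(tsub_pos_of_lt hp0.2.2).ne', by simp⟩)
  set c := par M p₀ D Ec with hc
  have hwM : w j M c ∈ M := in_zfset.1 ((u_w j).closed h.ctm.zf h.par_in)
  have hunM : un j M c ∈ M := in_zfset.1 ((u_un j).closed h.ctm.zf h.par_in)
  have hdM : satu (un j M c) ∈ M := in_zfset.1 (hMB.2.1.closed h.ctm.zf (in_zfset.2 hunM))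
  have hFFw : FF (w j M c) := gr_isFunc (fun x hx => by
    obtain ⟨n, rfl⟩ := mem_omega_iff'.1 hx
    exact (step3 hMC h j n).1)
  have hch : ∀ n : ℕ, ch j M c (nz n) ⊆ Str ∧
      coin (US (ch j M c (nz n))) ≤ ((1 : ℕ) : ENNReal) / 2 ^ (n + j) ∧
        ∀ z, z ∉ US (ch j M c (nz n)) → ∃ b ∈ E c (nz n) (bd j M c (nz n)), z ∉ US b :=
    fun n => step2 (step3 hMC h j n).2
  have hunS : un j M c ⊆ Str := by
    intro s hs
    unfold un at hs
    rcases ZFSet.mem_union.1 hs with hs | hs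
    · exact hp0.2.1.1 hs
    · obtain ⟨x, hx, hsx⟩ := ZFSet.mem_sUnion.1 hs
      obtain ⟨n, hn, rfl⟩ := mem_img.1 hx
      obtain ⟨n, rfl⟩ := mem_omega_iff'.1 hn
      exact (hch n).1 hsx
  have hchun : ∀ n : ℕ, ch j M c (nz n) ⊆ un j M c := by
    intro n s hs
    unfold un
    exact ZFSet.mem_union.2 (Or.inr (ZFSet.mem_sUnion.2 ⟨_, mem_img.2 ⟨nz n, nz_om n, rfl⟩, hs⟩))
  have hUS : US (un j M c) ⊆ US p₀ ∪ ⋃ n : ℕ, US (ch j M c (nz n)) := by
    intro z hz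
    obtain ⟨i, hi⟩ := mem_US.1 hz
    unfold un at hi
    rcases ZFSet.mem_union.1 hi with hi | hi
    · exact Or.inl ⟨i, hi⟩
    · obtain ⟨x, hx, hix⟩ := ZFSet.mem_sUnion.1 hi
      obtain ⟨n, hn, rfl⟩ := mem_img.1 hx
      obtain ⟨n, rfl⟩ := mem_omega_iff'.1 hn
      exact Or.inr (Set.mem_iUnion.2 ⟨n, i, hix⟩)
  have hmeas : coin (US (satu (un j M c))) < 1 := by
    rw [US_satu hunS]
    calc coin (US (un j M c)) ≤ coin (US p₀ ∪ ⋃ n : ℕ, US (ch j M c (nz n))) :=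
          measure_mono hUS
      _ ≤ coin (US p₀) + coin (⋃ n : ℕ, US (ch j M c (nz n))) := measure_union_le _ _
      _ ≤ coin (US p₀) + ∑' n : ℕ, coin (US (ch j M c (nz n))) := by
          gcongr
          exact measure_iUnion_le _
      _ ≤ coin (US p₀) + ∑' n : ℕ, (((1 : ℕ) : ENNReal) / 2 ^ (n + j)) := by
          gcongr with n
          exact (hch n).2.1
      _ = coin (US p₀) + 2 * 2⁻¹ ^ j := by rw [tsum_half]
      _ < 1 := by
          have h1 : (2 : ENNReal) * 2⁻¹ ^ j < 1 - coin (US p₀) := by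
            rw [ENNReal.lt_div_iff_mul_lt (by simp) (by simp)] at hj
            rwa [mul_comm]
          have h2 : coin (US p₀) ≠ ⊤ := (hp0.2.2.trans ENNReal.one_lt_top).ne
          calc coin (US p₀) + 2 * 2⁻¹ ^ j < coin (US p₀) + (1 - coin (US p₀)) :=
                ENNReal.add_lt_add_left h2 h1
            _ = 1 := add_tsub_cancel_of_le hp0.2.2.le
  have hdR : satu (un j M c) ∈ RB M := mem_RB.2 ⟨hdM, Sd_satu hunS, hmeas⟩
  obtain ⟨G, hG, hdG⟩ := exists_generic h.ctm h.R h.R0 hdR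
  have hp0d : p₀ ⊆ satu (un j M c) := by
    intro s hs
    refine sub_satu hunS ?_
    unfold un
    exact ZFSet.mem_union.2 (Or.inl hs)
  have hp0G : p₀ ∈ G := hG.up _ hdG p₀ h.p0 hp0d
  refine ⟨G, hG, hp0G, w j M c, hwM, hFFw, ?_⟩
  obtain ⟨y, -, hyo, hGy⟩ := hME M G h.ctm h.mu hG
  obtain ⟨z, rfl⟩ := exists_rl hyo
  have hFF := h.forces G hG hp0G
  have hz : z ∉ US (satu (un j M c)) := by
    rw [hGy] at hdG
    exact (ZFSet.mem_sep.1 hdG).2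
  intro nn m m' hm hm'
  obtain ⟨hnn, hmo⟩ := pair_mem_prod.1 (hFF.1 hm)
  obtain ⟨n, rfl⟩ := mem_omega_iff'.1 hnn
  have hm'' : m' = bd j M c (nz n) := by
    obtain ⟨v, -, hv⟩ := hFFw.2 (nz n) (nz_om n)
    have h1 := hv m' hm'
    have h2 := hv (bd j M c (nz n)) (by
      change pair (nz n) (bd j M c (nz n)) ∈ w j M c
      unfold w
      rw [mem_gr]
      exact ⟨nz n, nz_om n, rfl⟩)
    rw [h1, h2]
  have hzn : z ∉ US (ch j M c (nz n)) := by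
    intro hh
    apply hz
    rw [US_satu hunS]
    exact US_mono (hchun n) hh
  obtain ⟨b, hb, hzb⟩ := (hch n).2.2 z hzn
  obtain ⟨hbR, hb2⟩ := ZFSet.mem_sep.1 hb
  have hbG : b ∈ G := by
    rw [hGy]
    exact ZFSet.mem_sep.2 ⟨hbR, hzb⟩
  rcases hb2 with hb2 | ⟨k, hk, hkm, hkD⟩
  · exfalso
    obtain ⟨r, hr, h1, h2⟩ := hG.dir b hbG p₀ hp0G
    exact hb2 r (hG.sub hr) ⟨h1, h2⟩
  · have h1 := (h.Dspec _ (pair_mem_prod.2 ⟨nz_om n, hk⟩) b hbR).1 hkD G hG hbG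
    obtain ⟨v, -, hv⟩ := hFF.2 (nz n) (nz_om n)
    have h2 : m = k := by rw [hv m hm, hv k h1]
    rw [h2, hm'']
    exact hkm

end MF

open ZFSet Pool.Agent.Helper66.SC Pool.Agent.Helper22.SC in
/-- MF. -/
theorem st_MF (hMB : ST_MB.{u}) (hMC : ST_MC.{u}) (hME : ST_ME.{u}) : ST_MF.{u} := by
  intro M F hM hMu hF x hx hxF
  by_contra hcon
  have hRB := hMB.2.2.2.2 M ∅ hM.zf hMu
  obtain ⟨τ, hτ, rfl⟩ := hx
  have hprod : (ZFSet.omega.prod ZFSet.omega : ZFSet.{u}) ∈ M :=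
    prod_mem hM.zf hM.zf.omega hM.zf.omega
  have hB : PW M (ZFSet.omega.prod ZFSet.omega) ∈ M := Pow_mem hM.zf hprod
  have hmemB : ∀ w : ZFSet.{u}, w ∈ M → FF w → w ∈ PW M (ZFSet.omega.prod ZFSet.omega) :=
    fun w hw hF => mem_Pow.2 ⟨hw, hF.1⟩
  obtain ⟨φ, hφ⟩ := ud_iff.2 MF.urel_bad.{u}
  have hv : ∀ i, (![τ, chk (PW M (ZFSet.omega.prod ZFSet.omega))] : Fin 2 → ZFSet.{u}) i ∈ M := by
    intro i
    fin_cases i
    · exact hτ
    · exact chk_mem hM.zf hB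
  have hval : ∀ G, IsGeneric M (RB M) G → (fun i => val G
      ((![τ, chk (PW M (ZFSet.omega.prod ZFSet.omega))] : Fin 2 → ZFSet.{u}) i)) =
      ![val G τ, PW M (ZFSet.omega.prod ZFSet.omega)] := by
    intro G hG
    funext i
    fin_cases i
    · rfl
    · exact val_chk' hM hRB.1 hG hB
  have hsat : ∀ G, IsGeneric M (RB M) G → (Sat (Ext M G) ∅ φ (fun i => val G
      ((![τ, chk (PW M (ZFSet.omega.prod ZFSet.omega))] : Fin 2 → ZFSet.{u}) i)) ↔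
      (FF (val G τ) ∧ ∀ w ∈ PW M (ZFSet.omega.prod ZFSet.omega), ¬ (FF w ∧ LeF (val G τ) w))) := by
    intro G hG
    rw [hval G hG]
    refine hφ (Ext M G) ∅ (st_KE M _ G hM hRB.1 hG).zf _ ?_
    intro i
    fin_cases i
    · exact ⟨τ, hτ, rfl⟩
    · exact sub_ext hM hRB.1 hG hB
  obtain ⟨p₀, hp₀, hf⟩ := st_KT M (RB M) F hM hRB.1 hF 2 φ _ hv
    ((hsat F hF).2 ⟨hxF, fun w hw hw' => hcon ⟨w, (mem_Pow.1 hw).1, hw'.1, hw'.2⟩⟩)
  obtain ⟨D, hD, hD'⟩ := st_KD M (RB M) hM hRB.1 hRB.2 1 (.mem 0 1) (fun _ => τ) (fun _ => hτ)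
    (ZFSet.omega.prod ZFSet.omega) hprod
  have hStr : Str ∈ M := in_zfset.1 (hMB.1.closed hM.zf (a := PUnit.unit) (by simp))
  obtain ⟨Ec, hEc, hch⟩ := exists_chooses hM.zf hM.wo (Pow_mem hM.zf hStr)
  obtain ⟨G, hG, hpG, w, hw, hFw, hLe⟩ := MF.main hMB hMC hME (τ := τ) (p₀ := p₀) (D := D) (Ec := Ec)
    { ctm := hM
      mu := hMu
      str := hStr
      R := hRB.1
      R0 := hRB.2
      p0 := hF.sub hp₀
      hD := hD
      Dspec := fun t ht p hp => hD' t ht p hp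
      τM := hτ
      hE := hEc
      ch := hch
      forces := fun G' hG' hp' => ((hsat G' hG').1 (hf G' hG' hp')).1 }
  exact ((hsat G hG).1 (hf G hG hpG)).2 w (hmemB w hw hFw) ⟨hFw, hLe⟩

end Pool.Agent.Helper66.GP
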